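import Pool.Agent.Y499.HC.Stm2
import Pool.Agent.Y249.HC.Avg

set_option autoImplicit false

/-! # The frame measure has full support (helper of the project HC) -/

open Real Set MeasureTheory Metric
open scoped ENNReal

namespace Pool.Agent.Y331.HC

open Pool.Agent.Y499.HC Pool.Agent.Y249.HC

theorem rot_cont {d : ℕ} (A : Matrix.orthogonalGroup (Fin (d + 1)) ℝ) :
    Continuous (fun b : Fr d => rotF A b) := by
  refine Continuous.subtype_mk ?_ _
  apply continuous_pi
  intro j
  apply continuous_finsetSum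
  intro i _
  have h := cont_vec (d := d) i
  exact h.const_smul ((A : Matrix (Fin (d + 1)) (Fin (d + 1)) ℝ) i j)

theorem rot_trans {d : ℕ} (b b0 : Fr d) :
    ∃ A : Matrix.orthogonalGroup (Fin (d + 1)) ℝ, rotF A b = b0 := by
  have hcard : Fintype.card (Fin (d + 1)) = Module.finrank ℝ (E d) := by simp
  let B0 := basisOfOrthonormalOfCardEqFinrank b.2 hcard
  have hB0 : (⇑B0 : Fin (d + 1) → E d) = b.1 := coe_basisOfOrthonormalOfCardEqFinrank b.2 hcard
  let OB : OrthonormalBasis (Fin (d + 1)) ℝ (E d) := B0.toOrthonormalBasis (by rw [hB0]; exact b.2)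
  have hOB : ∀ i, OB i = b.1 i := by
    intro i
    have : (⇑OB : Fin (d + 1) → E d) = B0 := Module.Basis.coe_toOrthonormalBasis _ _
    rw [this, hB0]
  have horth : ∀ j k, ∑ i, (Matrix.of fun i j => inner ℝ (b.1 i) (b0.1 j) :
      Matrix (Fin (d + 1)) (Fin (d + 1)) ℝ) i j *
      (Matrix.of fun i j => inner ℝ (b.1 i) (b0.1 j) :
      Matrix (Fin (d + 1)) (Fin (d + 1)) ℝ) i k = if j = k then 1 else 0 := by
    intro j k
    rw [← (orthonormal_iff_ite.mp b0.2) j k, ← OB.sum_inner_mul_inner (b0.1 j) (b0.1 k)]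
    refine Finset.sum_congr rfl fun i _ => ?_
    rw [hOB, Matrix.of_apply, Matrix.of_apply, real_inner_comm (b0.1 j) (b.1 i)]
  refine ⟨⟨_, mat_mem _ horth⟩, ?_⟩
  apply Subtype.ext
  funext j
  have h1 := OB.sum_repr' (b0.1 j)
  simp only [hOB] at h1
  exact h1

theorem t_POS : Pool.Agent.Y499.HR.T_POS := by
  intro d μ hμ f hf hf0 hint b0
  by_contra hne
  have hpos : 0 < f b0 := lt_of_le_of_ne (hf0 b0) (Ne.symm hne)
  haveI := hμ.prob
  haveI := fr_compact d
  have hcA : ∀ A : Matrix.orthogonalGroup (Fin (d + 1)) ℝ,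
      Continuous (fun b : Fr d => f (rotF A b)) := fun A => hf.comp (rot_cont A)
  have hopen : ∀ A : Matrix.orthogonalGroup (Fin (d + 1)) ℝ,
      IsOpen {b : Fr d | 0 < f (rotF A b)} := fun A => isOpen_lt continuous_const (hcA A)
  obtain ⟨t, ht⟩ := isCompact_univ.elim_finite_subcover
    (fun A : Matrix.orthogonalGroup (Fin (d + 1)) ℝ => {b : Fr d | 0 < f (rotF A b)}) hopen (by
      intro b _
      obtain ⟨A, hA⟩ := rot_trans b b0
      refine mem_iUnion.mpr ⟨A, ?_⟩
      change 0 < f (rotF A b)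
      rw [hA]
      exact hpos)
  have hg : ∀ b : Fr d, 0 < ∑ A ∈ t, f (rotF A b) := by
    intro b
    obtain ⟨A, hA⟩ := mem_iUnion.mp (ht (mem_univ b))
    obtain ⟨hAt, hAb⟩ := mem_iUnion.mp hA
    exact Finset.sum_pos' (fun A _ => hf0 _) ⟨A, hAt, hAb⟩
  have hgc : Continuous (fun b : Fr d => ∑ A ∈ t, f (rotF A b)) :=
    continuous_finsetSum _ fun A _ => hcA A
  have hgi : ∫ b, ∑ A ∈ t, f (rotF A b) ∂μ = 0 := by
    rw [integral_finsetSum _ fun A _ => integ μ _ (hcA A)]
    refine Finset.sum_eq_zero fun A _ => ?_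
    rw [hμ.inv A f hf, hint]
  have h2 : 0 < ∫ b, ∑ A ∈ t, f (rotF A b) ∂μ := by
    rw [integral_pos_iff_support_of_nonneg (fun b => (hg b).le) (integ μ _ hgc)]
    have : Function.support (fun b : Fr d => ∑ A ∈ t, f (rotF A b)) = univ := by
      ext b
      simp only [Function.mem_support, mem_univ, iff_true]
      exact (hg b).ne'
    rw [this, measure_univ]
    exact one_pos
  linarith

end Pool.Agent.Y331.HC
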